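import Mathlib
import Pool.Agent.P8H90.AP.Fin
import Pool.Agent.P8H90.AP.All

set_option autoImplicit false

/-!
# `ζ(3)` and its incomplete integrals at all algebraic points, over fields generated by values of E-functions

For rational `b ∈ [0, 1)`, `l ≥ 1` and complex `z` let `E_{b,l}(z) = ∑_{m ≥ 1} (-1)^(m-1) z^m / (m! (m + b)^l)`. (So
`E_{0,1}(z) = ∫_0^z (1 - exp (-t)) dt / t` is the entire exponential integral and, for `b > 0` and `x > 0`,
`∫_0^x t ^ (b - 1) exp (-t) dt = x ^ b (1 / b - E_{b,1}(x))`; this is the error function for `b = 1/2`.)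

For a set `κ` of integers `k ≥ 2` let `F_κ` be the field of complex numbers generated by the exponentials `exp α` of **all**
algebraic numbers `α` and by **all** values `E_{b,l}(α)`, `α` algebraic, `b ∈ [0, 1)` rational, `l ≥ 1`, except those
with `b = 0` and `l ∈ κ`.

For `k ≥ 2` let `ω = exp (2 π i / k)`, let `C_k(x)` be the real part of
`(-1)^k / k! ∫ (∑_j ω^j log t_j)^k exp (-∑_j t_j) dt` over the cube `(0, x)^k`, and let `R_k(x)` be the same for the
rest of the octant `(0, ∞)^k`. Then `ζ(k) = C_k(x) + R_k(x)`, and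
`R_3(x) = 1/12 ∫ log(t_1 t_2 / t_3²)³ exp (-t_1 - t_2 - t_3) dt` over the points of the positive octant with
`max t_i ≥ x`.

(1) If `β_i` are algebraic numbers which are linearly independent over `ℚ`, then the numbers `exp β_i` and all the numbers
`E_{b,l}(α)` (`α ≠ 0` algebraic) are algebraically independent over `ℚ`.

(2) The numbers `C_k(x)` (`k ∈ κ`, `x > 0` real algebraic) are algebraically independent over `F_κ`.

(3) Let `k ≥ 2`, `F = F_{k}`. At most one of the numbers `ζ(k)` and `R_k(x)` (`x > 0` real algebraic) is algebraic over `F`.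
If `ζ(k)` is algebraic over `F`, for example if `ζ(k)` is algebraic, then the numbers `R_k(x)` (`x > 0` real algebraic)
are algebraically independent over `F`.

(4) Let `y_1, …, y_r` be complex numbers such that all the numbers `ζ(k)`, `k ∈ κ`, are algebraic over
`F_κ(y_1, …, y_r)`. At most `r` of the numbers `y_1, …, y_r` and `R_k(x)` (`k ∈ κ`, `x > 0` real algebraic) are algebraic
over `F_κ`; and for every finite set `S` of pairs `(k, x)` the transcendence degrees over `F_κ` of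
`F_κ(y_1, …, y_r, R_k(x) : (k, x) ∈ S)` and of `F_κ(R_k(x) : (k, x) ∈ S)` are at least `|S|` and `|S| - r`. For `r = 0` the numbers
`R_k(x)` are algebraically independent over `F_κ`.

(5) Let `c ≥ 0` and let `κ` be the set of all `k ≥ 2` which are even or at most `2 c + 1`. At most `c + 1` of the numbers
`π, ζ(3), ζ(5), …, ζ(2c + 1)` and `R_k(x)` (`k ∈ κ`, `x > 0` real algebraic) are algebraic over `F_κ`.

Proof. Over a Galois number field `K` the functions `exp (λ z) ∏ E_{b,l}(α z) ^ s` are linearly independent over `K[z]`. The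
combinations `v` of them over `K` form a ring which is stable under the Galois group, so that the product of the conjugates
of `v ≠ 0` is a nonzero E-function with rational coefficients in a finite dimensional, Galois stable and differentially
stable space; descending this space to `ℚ` and using the theorem of Siegel and Shidlovskii there (`R352.E.E_lin`) gives
`v(1) ≠ 0`. This is (1); for the rest one takes for `β` a basis of the field of all algebraic numbers.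

Packages: helper43 (descent), helper44 and helper76 (E-functions over number fields, values), helper57 (linear
independence of the functions, counting), helper90.
-/

namespace Pool.Agent.Results.MP_48b3e2_nt.AlgebraicPoints

open Set MeasureTheory

/-- `E_{b,l}(z) = ∑_{m ≥ 1} (-1)^(m-1) z^m / (m! (m + b)^l)` -/
noncomputable def E (b : ℚ) (l : ℕ) (z : ℂ) : ℂ :=
  ∑' m : ℕ, (-1) ^ m * z ^ (m + 1) / ((m + 1).factorial * ((m : ℂ) + 1 + b) ^ l)

/-- the generators of the field `F_κ` -/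
def gens (κ : Set ℕ) : Set ℂ := {z | ∃ α : ℂ, IsAlgebraic ℚ α ∧ z = Complex.exp α} ∪
  {z | ∃ (b : ℚ) (l : ℕ) (α : ℂ), 0 ≤ b ∧ b < 1 ∧ 1 ≤ l ∧ ¬(b = 0 ∧ l ∈ κ) ∧ IsAlgebraic ℚ α ∧ z = E b l α}

/-- the field `F_κ` -/
noncomputable def F (κ : Set ℕ) : Subfield ℂ := Subfield.closure (gens κ)

/-- the zeta value `ζ(k)` -/
noncomputable def zeta (k : ℕ) : ℝ := ∑' m : ℕ, 1 / ((m : ℝ) + 1) ^ k

/-- `ω = exp (2 π i / k)` -/
noncomputable def root (k : ℕ) : ℂ := Complex.exp (2 * Real.pi * Complex.I / k)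

/-- the real part of the normalized integral of `(∑_j ω^j log t_j)^k exp (-∑_j t_j)` over `D` -/
noncomputable def I (k : ℕ) (D : Set (Fin k → ℝ)) : ℝ :=
  ((-1) ^ k / k.factorial * ∫ t in D,
    (∑ j : Fin k, root k ^ (j : ℕ) * (Real.log (t j) : ℂ)) ^ k * ((Real.exp (-∑ j, t j) : ℝ) : ℂ)).re

/-- the integral over the cube `(0, x)^k` -/
noncomputable def C (k : ℕ) (x : ℝ) : ℝ := I k {t | ∀ j, 0 < t j ∧ t j < x}

/-- the integral over the rest of the octant -/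
noncomputable def R (k : ℕ) (x : ℝ) : ℝ := I k {t | (∀ j, 0 < t j) ∧ ∃ j, x ≤ t j}

/-- the pairs `(k, x)`, `k ∈ κ`, `x > 0` real algebraic -/
abbrev Pairs (κ : Set ℕ) : Type := {p : ℕ × ℝ // p.1 ∈ κ ∧ 0 < p.2 ∧ IsAlgebraic ℚ p.2}

/-- the positive real algebraic numbers -/
abbrev AlgPos : Type := {x : ℝ // 0 < x ∧ IsAlgebraic ℚ x}

/-- the names of those of `y_1, …, y_r` and `R_k(x)` (`k ∈ κ`, `x > 0` real algebraic) which are algebraic over `F_κ` -/
def algebraicOnes (κ : Set ℕ) {r : ℕ} (y : Fin r → ℂ) : Set (Fin r ⊕ Pairs κ) :=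
  {i | IsAlgebraic (F κ) (Sum.elim y (fun p => (R p.1.1 p.1.2 : ℂ)) i)}

/-- the numbers `π, ζ(3), ζ(5), …, ζ(2c+1)` -/
noncomputable def constants (c : ℕ) : Fin (c + 1) → ℝ := Fin.cons Real.pi fun i : Fin c => zeta (2 * i + 3)

open Pool.Agent.P8H90.AP

theorem E_eq (b : ℚ) (hb : 0 ≤ b) (l : ℕ) (z : ℂ) : E b l z = Ea b l z := by
  rw [E, Ea_shift b hb]
  refine tsum_congr fun m => ?_
  rw [neg_pow z (m + 1), pow_succ (-1 : ℂ) m]
  ring

theorem F_eq (κ : Set ℕ) : F κ = FB κ := by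
  rw [F, FB]
  congr 1
  ext z
  constructor
  · rintro (h | ⟨b, l, α, h0, h1, h2, h3, h4, rfl⟩)
    · exact Or.inl h
    · exact Or.inr ⟨l, b, α, h2, h0, h1, h3, h4, E_eq b h0 l α⟩
  · rintro (h | ⟨l, b, α, h2, h0, h1, h3, h4, rfl⟩)
    · exact Or.inl h
    · exact Or.inr ⟨b, l, α, h0, h1, h2, h3, h4, (E_eq b h0 l α).symm⟩

theorem cube_eq (k : ℕ) (x : ℝ) :
    {t : Fin k → ℝ | ∀ j, 0 < t j ∧ t j < x} = Pool.Agent.R352.Q.cube k (Ioo 0 x) := by
  ext t
  simp [Pool.Agent.R352.Q.cube]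

theorem rest_eq (k : ℕ) (x : ℝ) : {t : Fin k → ℝ | (∀ j, 0 < t j) ∧ ∃ j, x ≤ t j} =
    Pool.Agent.R352.Q.cube k (Ioi 0) \ Pool.Agent.R352.Q.cube k (Ioo 0 x) := by
  ext t
  simp only [Pool.Agent.R352.Q.cube, mem_sdiff, mem_univ_pi, mem_Ioi, mem_Ioo, mem_setOf_eq]
  constructor
  · rintro ⟨h1, j, h2⟩
    exact ⟨h1, fun h => absurd (h j).2 (not_lt.2 h2)⟩
  · rintro ⟨h1, h2⟩
    push Not at h2
    obtain ⟨j, hj⟩ := h2
    exact ⟨h1, j, hj (h1 j)⟩

theorem C_eq {k : ℕ} (hk : 2 ≤ k) {x : ℝ} (hx : 0 < x) : C k x = Pool.Agent.R352.Q.Zk k x := by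
  have h : C k x = (Pool.Agent.R352.Q.NI k (Pool.Agent.R352.Q.cube k (Ioo 0 x))).re := by
    rw [C, cube_eq]
    rfl
  rw [h, Pool.Agent.R352.Q.NI_box hk hx, Complex.ofReal_re]

theorem R_eq {k : ℕ} (hk : 2 ≤ k) {x : ℝ} (hx : 0 < x) : R k x = zeta k - Pool.Agent.R352.Q.Zk k x := by
  have h : R k x = (Pool.Agent.R352.Q.NI k
      (Pool.Agent.R352.Q.cube k (Ioi 0) \ Pool.Agent.R352.Q.cube k (Ioo 0 x))).re := by
    rw [R, rest_eq]
    rfl
  rw [h, Pool.Agent.R352.Q.NI_diff, Pool.Agent.R352.Q.NI_full hk, Pool.Agent.R352.Q.NI_box hk hx, Complex.sub_re,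
    Complex.ofReal_re, Complex.ofReal_re]
  rfl

theorem three {x : ℝ} (hx : 0 < x) : R 3 x = 1 / 12 * ∫ t in {t : Fin 3 → ℝ | (∀ j, 0 < t j) ∧ ∃ j, x ≤ t j},
    Real.log (t 0 * t 1 / t 2 ^ 2) ^ 3 * Real.exp (-(t 0 + t 1 + t 2)) := by
  rw [rest_eq, Pool.Agent.R352.Q.three_rest hx, R_eq (by norm_num) hx, Pool.Agent.R352.Q.Rk]
  have h : zeta 3 = Pool.Agent.R352.E.zt 3 := rfl
  rw [h]
  ring

/-- the values `R_k(x)` as differences -/
theorem R_fun (κ : Set ℕ) (hκ : ∀ k ∈ κ, 2 ≤ k) : (fun p : Pairs κ => (R p.1.1 p.1.2 : ℂ)) =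
    fun p : Pairs κ => (zeta p.1.1 : ℂ) - ((Pool.Agent.R352.Q.Zk p.1.1 p.1.2 : ℝ) : ℂ) := by
  funext p
  rw [R_eq (hκ _ p.2.1) p.2.2.1]
  push_cast
  rfl

theorem count (κ : Set ℕ) (hκ : ∀ k ∈ κ, 2 ≤ k) (r : ℕ) (y : Fin r → ℂ)
    (hy : ∀ k ∈ κ, IsAlgebraic (IntermediateField.adjoin (F κ) (range y)) (zeta k : ℂ)) :
    (algebraicOnes κ y).encard ≤ (r : ℕ∞) ∧
    (∀ S : Finset (Pairs κ), (S.card : Cardinal) ≤ Algebra.trdeg (F κ) (IntermediateField.adjoin (F κ)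
      (range y ∪ (fun p : Pairs κ => (R p.1.1 p.1.2 : ℂ)) '' (S : Set (Pairs κ))))) ∧
    (∀ S : Finset (Pairs κ), (S.card : Cardinal) ≤ Algebra.trdeg (F κ) (IntermediateField.adjoin (F κ)
      ((fun p : Pairs κ => (R p.1.1 p.1.2 : ℂ)) '' (S : Set (Pairs κ)))) + r) ∧
    ((∀ k ∈ κ, IsAlgebraic (F κ) (zeta k : ℂ)) → AlgebraicIndependent (F κ) (fun p : Pairs κ => (R p.1.1 p.1.2 : ℂ))) := by
  rw [algebraicOnes, R_fun κ hκ]
  rw [F_eq] at hy ⊢
  obtain ⟨h1, h2, h3, h4⟩ := (s_mc ℂ (FB κ) (ZP κ) _ (ai_Z s_fna s_mc κ hκ)).2 (fun p => (zeta p.1.1 : ℂ)) r y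
    (fun p => hy _ p.2.1)
  exact ⟨h1, h2, h3, fun h => h4 fun p => h _ p.2.1⟩

/-- the transfer from pairs to numbers -/
theorem one {k : ℕ} (hk : 2 ≤ k) :
    {o : Option AlgPos | IsAlgebraic (F {k}) (o.elim (zeta k : ℂ) fun x => (R k x.1 : ℂ))}.encard ≤ 1 := by
  have h := (count {k} (by rintro _ rfl; exact hk) 1 (fun _ => (zeta k : ℂ)) (by
    rintro _ rfl
    exact adj_mem ⟨0, rfl⟩)).1
  let g : Option AlgPos → Fin 1 ⊕ Pairs {k} := fun o => o.elim (Sum.inl 0) fun x => Sum.inr ⟨(k, x.1), rfl, x.2⟩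
  have hg : Function.Injective g := by
    intro a b hab
    cases a with
    | none => cases b with
      | none => rfl
      | some x => simp [g] at hab
    | some x => cases b with
      | none => simp [g] at hab
      | some x' =>
        simp only [g, Option.elim_some, Sum.inr.injEq, Subtype.mk.injEq, Prod.mk.injEq, true_and] at hab
        rw [Subtype.ext hab]
  have h2 : g '' {o : Option AlgPos | IsAlgebraic (F {k}) (o.elim (zeta k : ℂ) fun x => (R k x.1 : ℂ))} ⊆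
      algebraicOnes {k} (fun _ : Fin 1 => (zeta k : ℂ)) := by
    rintro _ ⟨o, ho, rfl⟩
    cases o with
    | none => exact ho
    | some x => exact ho
  calc _ = (g '' {o : Option AlgPos | IsAlgebraic (F {k}) (o.elim (zeta k : ℂ) fun x => (R k x.1 : ℂ))}).encard :=
        (hg.encard_image _).symm
    _ ≤ _ := encard_le_encard h2
    _ ≤ 1 := by exact_mod_cast h

theorem one_indep {k : ℕ} (hk : 2 ≤ k) (h : IsAlgebraic (F {k}) (zeta k : ℂ)) :
    AlgebraicIndependent (F {k}) (fun x : AlgPos => (R k x.1 : ℂ)) := by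
  have h0 : ∀ j ∈ ({k} : Set ℕ), IsAlgebraic (F {k}) (zeta j : ℂ) := by
    intro j hj
    rw [mem_singleton_iff.1 hj]
    exact h
  have h1 := (count {k} (fun j hj => by rw [mem_singleton_iff.1 hj]; exact hk) 0 Fin.elim0
    (fun j hj => alg_up _ (h0 j hj))).2.2.2 h0
  let f : AlgPos → Pairs {k} := fun x => ⟨(k, x.1), rfl, x.2⟩
  have hf : Function.Injective f := by
    intro a b hab
    have h2 := congrArg (fun p : Pairs {k} => p.1.2) hab
    exact Subtype.ext h2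
  exact h1.comp f hf

theorem result :
    -- the decompositions
    (∀ (k : ℕ) (x : ℝ), 2 ≤ k → 0 < x → zeta k = C k x + R k x) ∧
    (∀ x : ℝ, 0 < x → R 3 x = 1 / 12 * ∫ t in {t : Fin 3 → ℝ | (∀ j, 0 < t j) ∧ ∃ j, x ≤ t j},
      Real.log (t 0 * t 1 / t 2 ^ 2) ^ 3 * Real.exp (-(t 0 + t 1 + t 2))) ∧
    -- (1)
    (∀ (ι : Type) (β : ι → ℂ), (∀ i, IsAlgebraic ℚ (β i)) → LinearIndependent ℚ β →
      AlgebraicIndependent ℚ (Sum.elim (fun i => Complex.exp (β i))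
        (fun p : {p : ℚ × ℕ × ℂ // 0 ≤ p.1 ∧ p.1 < 1 ∧ 1 ≤ p.2.1 ∧ IsAlgebraic ℚ p.2.2 ∧ p.2.2 ≠ 0} =>
          E p.1.1 p.1.2.1 p.1.2.2))) ∧
    -- (2)
    (∀ κ : Set ℕ, (∀ k ∈ κ, 2 ≤ k) → AlgebraicIndependent (F κ) (fun p : Pairs κ => (C p.1.1 p.1.2 : ℂ))) ∧
    -- (3)
    (∀ k : ℕ, 2 ≤ k →
      {o : Option AlgPos | IsAlgebraic (F {k}) (o.elim (zeta k : ℂ) fun x => (R k x.1 : ℂ))}.encard ≤ 1 ∧
      (IsAlgebraic (F {k}) (zeta k : ℂ) → AlgebraicIndependent (F {k}) (fun x : AlgPos => (R k x.1 : ℂ)))) ∧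
    -- (4)
    (∀ κ : Set ℕ, (∀ k ∈ κ, 2 ≤ k) → ∀ (r : ℕ) (y : Fin r → ℂ),
      (∀ k ∈ κ, IsAlgebraic (IntermediateField.adjoin (F κ) (range y)) (zeta k : ℂ)) →
      (algebraicOnes κ y).encard ≤ (r : ℕ∞) ∧
      (∀ S : Finset (Pairs κ), (S.card : Cardinal) ≤ Algebra.trdeg (F κ) (IntermediateField.adjoin (F κ)
        (range y ∪ (fun p : Pairs κ => (R p.1.1 p.1.2 : ℂ)) '' (S : Set (Pairs κ))))) ∧
      (∀ S : Finset (Pairs κ), (S.card : Cardinal) ≤ Algebra.trdeg (F κ) (IntermediateField.adjoin (F κ)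
        ((fun p : Pairs κ => (R p.1.1 p.1.2 : ℂ)) '' (S : Set (Pairs κ)))) + r) ∧
      ((∀ k ∈ κ, IsAlgebraic (F κ) (zeta k : ℂ)) →
        AlgebraicIndependent (F κ) (fun p : Pairs κ => (R p.1.1 p.1.2 : ℂ)))) ∧
    -- (5)
    ∀ c : ℕ, (algebraicOnes {k | 2 ≤ k ∧ (Even k ∨ k ≤ 2 * c + 1)} (fun i => (constants c i : ℂ))).encard ≤
      ((c + 1 : ℕ) : ℕ∞) := by
  refine ⟨fun k x hk hx => ?_, fun x hx => three hx, fun ι β hβ hβ' => ?_, fun κ hκ => ?_,
    fun k hk => ⟨one hk, one_indep hk⟩, fun κ hκ r y hy => count κ hκ r y hy, fun c => ?_⟩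
  · rw [C_eq hk hx, R_eq hk hx]
    ring
  · have h1 := s_fna ι β hβ hβ'
    let g : ι ⊕ {p : ℚ × ℕ × ℂ // 0 ≤ p.1 ∧ p.1 < 1 ∧ 1 ≤ p.2.1 ∧ IsAlgebraic ℚ p.2.2 ∧ p.2.2 ≠ 0} → ι ⊕ JA :=
      Sum.map id fun p => ⟨(p.1.2.1 - 1, p.1.1, p.1.2.2), p.2.1, p.2.2.1, p.2.2.2.2.1, p.2.2.2.2.2⟩
    have hg : Function.Injective g := by
      refine Function.Injective.sumMap Function.injective_id ?_
      intro p q h
      simp only [Subtype.mk.injEq, Prod.mk.injEq] at h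
      have h2 := p.2.2.2.1
      have h3 := q.2.2.2.1
      exact Subtype.ext (Prod.ext h.2.1 (Prod.ext (by omega) h.2.2))
    have h2 := h1.comp g hg
    convert h2 using 1
    funext s
    rcases s with i | p
    · rfl
    · show E p.1.1 p.1.2.1 p.1.2.2 = Ea p.1.1 (p.1.2.1 - 1 + 1) p.1.2.2
      rw [Nat.sub_add_cancel p.2.2.2.1, E_eq _ p.2.1]
  · rw [F_eq]
    have h := ai_Z s_fna s_mc κ hκ
    convert h using 1
    funext p
    rw [C_eq (hκ _ p.2.1) p.2.2.1]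
  · exact (count _ (fun k hk => hk.1) (c + 1) (fun i => (constants c i : ℂ)) fun k hk =>
      constants_alg _ hk.1 hk.2).1

end Pool.Agent.Results.MP_48b3e2_nt.AlgebraicPoints
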