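import Mathlib
import Pool.Agent.P8H10.ZRes

set_option autoImplicit false

/-!
# A joint measure for `ζ(3)` and its incomplete integrals

For a rational number `x ≥ 0` let
`R(x) = 1/12 * ∫ log(t_1 t_2 / t_3²)³ exp (-t_1 - t_2 - t_3) dt`, the integral being over the points of the
positive octant with `max t_i ≥ x`. Then `R(0) = ζ(3)`.

(1) Two polynomials `P`, `Q` without common factor in the ring `ℤ[E, Y_x : x ∈ T]` (`T` a finite set of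
nonnegative rational numbers), of total degree at most `D` and with coefficients at most `H`, are not both small at
`e, R(x)`: `max (|P|, |Q|) ≥ c H ^ (-κ)` with positive `κ`, `c` which depend only on `T` and `D`.

(2) The same for nonzero polynomials `P(e, R(x₀))` and `Q(e, R(x) : x ∈ S)` when `x₀ ∉ S`. For instance, if
`ζ(3)` (or any one of the numbers `R(x₀)`) is algebraic over `ℚ(e)`, then `e` and all the other numbers `R(x)` have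
measures of algebraic independence which are polynomial in the height for every degree.

(3) Let `T` be finite, `d ≥ 0`, `M > 1`, and let `θ > 0` be small in terms of `T`, `d`, `M`. Call `R(x)` near at the
scale `X` if `|P(R(x))| ≤ 1/X` for some nonzero integer polynomial `P` of degree at most `d` with coefficients at
most `X ^ θ`. At every large scale at most one of the numbers `R(x)`, `x ∈ T`, is near. One of these numbers is
algebraic of degree at most `d` if and only if at every large scale one of them is near; otherwise there are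
arbitrarily large `Z` such that none of them is near at any scale between `Z` and `Z ^ M`.
-/

namespace Pool.Agent.Results.MP_48b3e2_nt.JointMeasure

open MeasureTheory Polynomial

/-- the integral `R(x)` -/
noncomputable def R (x : ℚ) : ℝ :=
  1 / 12 * ∫ t in {t : Fin 3 → ℝ | (∀ j, 0 < t j) ∧ ∃ j, (x : ℝ) ≤ t j},
    Real.log (t 0 * t 1 / t 2 ^ 2) ^ 3 * Real.exp (-(t 0 + t 1 + t 2))

/-- the numbers `e` and `R(x)`, `x ∈ T` -/
noncomputable def fam (T : Finset ℚ) : Option T → ℝ := fun o => o.elim (Real.exp 1) fun x => R x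

/-- total degree at most `D`, coefficients at most `H` in absolute value -/
def Bounded {σ : Type} (D : ℕ) (H : ℝ) (P : MvPolynomial σ ℤ) : Prop :=
  P.totalDegree ≤ D ∧ ∀ s, |((P.coeff s : ℤ) : ℝ)| ≤ H

/-- `R(x)` is an algebraic number of degree at most `d` -/
def Alg (d : ℕ) (x : ℚ) : Prop := ∃ P : ℤ[X], P ≠ 0 ∧ P.natDegree ≤ d ∧ aeval (R x) P = 0

/-- `R(x)` is near at the scale `X` -/
def Near (d : ℕ) (θ X : ℝ) (x : ℚ) : Prop :=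
  ∃ P : ℤ[X], P ≠ 0 ∧ P.natDegree ≤ d ∧ (∀ k, |((P.coeff k : ℤ) : ℝ)| ≤ X ^ θ) ∧ |aeval (R x) P| ≤ X⁻¹

theorem R_eq {x : ℚ} (hx : 0 ≤ x) : R x = Pool.Agent.P8H10.ZM.Rz x := Pool.Agent.P8H10.ZM.tail_eq x hx

theorem fam_eq {T : Finset ℚ} (hT : ∀ x ∈ T, 0 ≤ x) : fam T = Pool.Agent.P8H10.ZM.fz T := by
  funext o
  cases o with
  | none => rfl
  | some x => exact R_eq (hT x x.2)

theorem result :
    R 0 = ∑' n : ℕ, 1 / ((n : ℝ) + 1) ^ 3 ∧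
    -- (1)
    (∀ T : Finset ℚ, (∀ x ∈ T, 0 ≤ x) → ∀ D : ℕ, ∃ κ c : ℝ, 0 < κ ∧ 0 < c ∧
      ∀ (P Q : MvPolynomial (Option T) ℤ) (H : ℝ), P ≠ 0 → IsRelPrime P Q → Bounded D H P → Bounded D H Q →
        c * H ^ (-κ) ≤ max |MvPolynomial.aeval (fam T) P| |MvPolynomial.aeval (fam T) Q|) ∧
    -- (2)
    (∀ (x₀ : ℚ) (S : Finset ℚ), 0 ≤ x₀ → (∀ x ∈ S, 0 ≤ x) → x₀ ∉ S → ∀ D : ℕ, ∃ κ c : ℝ, 0 < κ ∧ 0 < c ∧
      ∀ (P : MvPolynomial (Fin 2) ℤ) (Q : MvPolynomial (Option S) ℤ) (H : ℝ), P ≠ 0 → Q ≠ 0 →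
        Bounded D H P → Bounded D H Q →
        c * H ^ (-κ) ≤ max |MvPolynomial.aeval ![Real.exp 1, R x₀] P| |MvPolynomial.aeval (fam S) Q|) ∧
    -- (3)
    (∀ T : Finset ℚ, (∀ x ∈ T, 0 ≤ x) → ∀ (d : ℕ) (M : ℝ), 1 < M → ∃ θ₀ : ℝ, 0 < θ₀ ∧ ∀ θ : ℝ, 0 < θ → θ ≤ θ₀ →
      (∃ K : ℝ, ∀ X ≥ K, ∀ x ∈ T, ∀ y ∈ T, Near d θ X x → Near d θ X y → x = y) ∧
      ((∃ x ∈ T, Alg d x) ↔ ∃ K : ℝ, ∀ X ≥ K, ∃ x ∈ T, Near d θ X x) ∧
      ((∀ x ∈ T, ¬ Alg d x) → ∀ K : ℝ, ∃ Z ≥ K, ∀ Y : ℝ, Z < Y → Y ≤ Z ^ M → ∀ x ∈ T, ¬ Near d θ Y x)) := by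
  refine ⟨?_, fun T hT D => ?_, fun x₀ S h0 hS hx D => ?_, fun T hT d M hM => ?_⟩
  · rw [R_eq le_rfl, Pool.Agent.P8H10.ZM.Rz, Pool.Agent.P8H10.ZM.Cz, if_pos rfl, sub_zero]
    rfl
  · obtain ⟨κ, c, hκ, hc, h⟩ := Pool.Agent.P8H10.ZM.z_cop T hT D
    rw [fam_eq hT]
    exact ⟨κ, c, hκ, hc, fun P Q H hP hPQ h1 h2 => h P Q hP hPQ h1.1 h2.1 H h1.2 h2.2⟩
  · obtain ⟨κ, c, hκ, hc, h⟩ := Pool.Agent.P8H10.ZM.z_sep S x₀ hS h0 hx D
    rw [fam_eq hS, R_eq h0]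
    exact ⟨κ, c, hκ, hc, fun P Q H hP hQ h1 h2 => h P Q hP hQ h1.1 h2.1 H h1.2 h2.2⟩
  · obtain ⟨θ₀, hθ₀, h⟩ := Pool.Agent.P8H10.ZM.z_dich T hT d M hM
    refine ⟨θ₀, hθ₀, fun θ hθ hθ' => ?_⟩
    have hd := h θ hθ hθ'
    have hN : ∀ X : ℝ, ∀ x ∈ T, Near d θ X x ↔ Pool.Agent.N743.AlgNear d θ X (Pool.Agent.P8H10.ZM.Rz x) := by
      intro X x hx
      rw [← R_eq (hT x hx)]
      rfl
    have hA : ∀ x ∈ T, Alg d x ↔ Pool.Agent.N743.AlgDeg d (Pool.Agent.P8H10.ZM.Rz x) := by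
      intro x hx
      rw [← R_eq (hT x hx)]
      rfl
    refine ⟨?_, ?_, ?_⟩
    · obtain ⟨K, hK⟩ := hd.excl
      refine ⟨K, fun X hX x hx y hy h1 h2 => ?_⟩
      exact congrArg Subtype.val (hK X hX ⟨x, hx⟩ ⟨y, hy⟩ ((hN X x hx).1 h1) ((hN X y hy).1 h2))
    · constructor
      · rintro ⟨x, hx, h1⟩
        obtain ⟨K, hK⟩ := hd.equiv.1 ⟨⟨x, hx⟩, (hA x hx).1 h1⟩
        refine ⟨K, fun X hX => ?_⟩
        obtain ⟨y, hy⟩ := hK X hX
        exact ⟨y, y.2, (hN X y y.2).2 hy⟩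
      · rintro ⟨K, hK⟩
        obtain ⟨y, hy⟩ := hd.equiv.2 ⟨K, fun X hX => by
          obtain ⟨x, hx, h1⟩ := hK X hX
          exact ⟨⟨x, hx⟩, (hN X x hx).1 h1⟩⟩
        exact ⟨y, y.2, (hA y y.2).2 hy⟩
    · intro h1 K
      obtain ⟨Z, hZ, h2⟩ := hd.voids (fun x hx => h1 x x.2 ((hA x x.2).2 hx)) K
      exact ⟨Z, hZ, fun Y hY hY' x hx h3 => h2 Y hY hY' ⟨x, hx⟩ ((hN Y x hx).1 h3)⟩

end Pool.Agent.Results.MP_48b3e2_nt.JointMeasure
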