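import Mathlib
import Pool.Agent.P8H73.PZ.Beyond
import Pool.Agent.P8H10.ZUnc
import Pool.Agent.Results.MP_48b3e2_nt.IncompleteZetaValues

set_option autoImplicit false

/-!
# `ζ(3)` over fields generated by values of E-functions

A field `F` of real numbers is called simultaneously Liouville (`SimLiouville`) if for any finitely many elements
`x_1, …, x_m` of `F` and any `w` there are arbitrarily large `q` with `‖q x_i‖ < q ^ (-w)` for all `i`. The field of
rational numbers is one of them, and some of them have the cardinality of the continuum.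

For rational `a ∈ [0, 1)`, `l ≥ 1` and rational `x > 0` let `E_{a,l}(x) = ∑_{m ≥ 1} (-1)^(m-1) x^m / (m! (m + a)^l)`.
(For example `E_{0,1}(x) = ∫_0^x (1 - exp (-t)) dt / t` is the entire exponential integral and
`∫_0^x t ^ (a - 1) exp (-t) dt = x ^ a (1 / a - E_{a,1}(x))` for `a > 0`, which is the error function for `a = 1/2`.)

For `k ≥ 2` let `ω = exp (2 π i / k)`, let `C_k(x)` be the real part of
`(-1)^k / k! ∫ (∑_j ω^j log t_j)^k exp (-∑_j t_j) dt` over the cube `(0, x)^k`, and let `R_k(x)` be the same for the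
rest of the octant `(0, ∞)^k`. Then `ζ(k) = C_k(x) + R_k(x)`, and
`R_3(x) = 1/12 ∫ log(t_1 t_2 / t_3²)³ exp (-t_1 - t_2 - t_3) dt` over the points of the positive octant with
`max t_i ≥ x`.

Let `F` be simultaneously Liouville and let `K = K(F, k)` be the field generated over `F` by `e` and **all** the
numbers `E_{a,l}(x)` with `(a, l) ≠ (0, k)`.

(1) `e`, the numbers `E_{a,l}(x)` with `(a, l) ≠ (0, k)` and the numbers `C_k(x)` (`x > 0` rational) are
algebraically independent over `F`. In particular `K` has infinite transcendence degree over `F`.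

(2) At most one of the numbers `ζ(k)` and `R_k(x)` (`x > 0` rational) is algebraic over `K`. If `ζ(k)` is algebraic
over `K`, for example if `ζ(k)` is algebraic, then all the numbers `R_k(x)` are algebraically independent over `K`.

(3) If `ζ(k)` is algebraic over `K(y_1, …, y_r)`, `y_j` real, then at most `r` of the numbers `y_1, …, y_r` and
`R_k(x)` are algebraic over `K`, and `trdeg K(y_1, …, y_r, R_k(x) : x ∈ S) ≥ |S|` and
`trdeg K(R_k(x) : x ∈ S) + r ≥ |S|` over `K` for all finite sets `S` of positive rational numbers.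
-/

namespace Pool.Agent.Results.MP_48b3e2_nt.OverEFunctionValues

open Set MeasureTheory Cardinal

/-- any finitely many elements of `F` have simultaneous rational approximations of any order -/
def SimLiouville (F : Subfield ℝ) : Prop :=
  ∀ s : Finset ℝ, (∀ x ∈ s, x ∈ F) → ∀ w q0 : ℕ, ∃ q : ℕ, q0 ≤ q ∧ 1 ≤ q ∧
    ∀ x ∈ s, ∃ p : ℤ, |(q : ℝ) * x - p| < 1 / (q : ℝ) ^ w

/-- the zeta value `ζ(k)` -/
noncomputable def zeta (k : ℕ) : ℝ := ∑' m : ℕ, 1 / ((m : ℝ) + 1) ^ k

/-- `E_{a,l}(x) = ∑_{m ≥ 1} (-1)^(m-1) x^m / (m! (m + a)^l)` -/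
noncomputable def E (a : ℝ) (l : ℕ) (x : ℝ) : ℝ :=
  ∑' m : ℕ, (-1) ^ m * x ^ (m + 1) / ((m + 1).factorial * (((m : ℝ) + 1) + a) ^ l)

/-- the indices `(l, a, x)` with `(a, l) ≠ (0, k)` -/
def Index (k : ℕ) : Type :=
  {p : ℕ × ℚ × ℚ // 1 ≤ p.1 ∧ 0 ≤ p.2.1 ∧ p.2.1 < 1 ∧ 0 < p.2.2 ∧ ¬(p.2.1 = 0 ∧ p.1 = k)}

/-- `e` and the numbers `E_{a,l}(x)` with `(a, l) ≠ (0, k)` -/
noncomputable def gens (k : ℕ) : Option (Index k) → ℝ := fun o =>
  o.elim (Real.exp 1) fun p => E p.1.2.1 p.1.1 p.1.2.2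

/-- the field `F(e, E_{a,l}(x) : (a, l) ≠ (0, k))` -/
noncomputable def K (F : Subfield ℝ) (k : ℕ) : Subfield ℝ := (IntermediateField.adjoin F (range (gens k))).toSubfield

/-- `ω = exp (2 π i / k)` -/
noncomputable def root (k : ℕ) : ℂ := Complex.exp (2 * Real.pi * Complex.I / k)

/-- the real part of the normalized integral of `(∑_j ω^j log t_j)^k exp (-∑_j t_j)` over `D` -/
noncomputable def I (k : ℕ) (D : Set (Fin k → ℝ)) : ℝ :=
  ((-1) ^ k / k.factorial * ∫ t in D,
    (∑ j : Fin k, root k ^ (j : ℕ) * (Real.log (t j) : ℂ)) ^ k * ((Real.exp (-∑ j, t j) : ℝ) : ℂ)).re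

/-- the integral over the cube `(0, x)^k` -/
noncomputable def C (k : ℕ) (x : ℝ) : ℝ := I k {t | ∀ j, 0 < t j ∧ t j < x}

/-- the integral over the rest of the octant -/
noncomputable def R (k : ℕ) (x : ℝ) : ℝ := I k {t | (∀ j, 0 < t j) ∧ ∃ j, x ≤ t j}

/-- positive rational numbers -/
abbrev PosRat : Type := {x : ℚ // 0 < x}

/-- those of `y_1, …, y_r`, `R_k(x)` which are algebraic over `L` -/
def algebraicOnes (L : Subfield ℝ) (k : ℕ) {r : ℕ} (y : Fin r → ℝ) : Set (Fin r ⊕ PosRat) :=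
  {i | IsAlgebraic L (Sum.elim y (fun x => R k x.1) i)}

open Pool.Agent.P8H73.PZ Pool.Agent.P8H10.MF

theorem E_eq (a : ℝ) (l : ℕ) (x : ℝ) : E a l x = Pool.Agent.R352.T.EA a l x := by
  rw [E, Pool.Agent.R352.T.EA]
  refine tsum_congr fun m => ?_
  rw [neg_pow x (m + 1), pow_succ (-1 : ℝ) m]
  ring

/-- the change of indices -/
def ch (k : ℕ) (p : Index k) : Bs k := ⟨(p.1.1 - 1, p.1.2), ⟨p.2.2.1, p.2.2.2.1, p.2.2.2.2.1⟩, by
  rintro ⟨h1, h2⟩
  refine p.2.2.2.2.2 ⟨h1, ?_⟩
  have := p.2.1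
  simp only at h2
  omega⟩

theorem ch_inj (k : ℕ) : Function.Injective (ch k) := by
  intro p q h
  simp only [ch, Subtype.mk.injEq, Prod.mk.injEq] at h
  have h1 := p.2.1
  have h2 := q.2.1
  exact Subtype.ext (Prod.ext (by omega) h.2)

theorem gens_eq (k : ℕ) (o : Option (Index k)) : gens k o = bs k (o.map (ch k)) := by
  cases o with
  | none => rfl
  | some p =>
    show E p.1.2.1 p.1.1 p.1.2.2 = Pool.Agent.R352.T.EA p.1.2.1 (p.1.1 - 1 + 1) p.1.2.2
    rw [E_eq, Nat.sub_add_cancel p.2.1]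

theorem range_gens (k : ℕ) : range (gens k) = range (bs k) := by
  ext z
  constructor
  · rintro ⟨o, rfl⟩
    exact ⟨_, (gens_eq k o).symm⟩
  · rintro ⟨o, rfl⟩
    cases o with
    | none => exact ⟨none, rfl⟩
    | some p =>
      refine ⟨some ⟨(p.1.1 + 1, p.1.2), by simp, p.2.1.1, p.2.1.2.1, p.2.1.2.2, p.2.2⟩, ?_⟩
      show E p.1.2.1 (p.1.1 + 1) p.1.2.2 = Pool.Agent.R352.T.EA p.1.2.1 (p.1.1 + 1) p.1.2.2
      rw [E_eq]

theorem K_eq (F : Subfield ℝ) (k : ℕ) : K F k = Kf F k := by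
  rw [K, Kf, range_gens]

theorem C_eq {k : ℕ} (hk : 2 ≤ k) (x : PosRat) : C k x.1 = Pool.Agent.R352.Q.Zk k x.1 :=
  Pool.Agent.Results.MP_48b3e2_nt.IncompleteZetaValues.C_eq hk x.2

theorem R_eq {k : ℕ} (hk : 2 ≤ k) (x : PosRat) : R k x.1 = zeta k - Pool.Agent.R352.Q.Zk k x.1 :=
  Pool.Agent.Results.MP_48b3e2_nt.IncompleteZetaValues.R_eq hk x.2

theorem main {F : Subfield ℝ} (hF : SimLiouville F) {k : ℕ} (hk : 2 ≤ k) {r : ℕ} (y : Fin r → ℝ)
    (hy : IsAlgebraic (IntermediateField.adjoin (K F k) (range y)) (zeta k)) :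
    (algebraicOnes (K F k) k y).encard ≤ (r : ℕ∞) := by
  rw [K_eq] at hy ⊢
  refine Pool.Agent.R352.E.encard_le_of_finset _ _ fun t ht => ?_
  refine countK (AI_K hF hk) (zeta k) y (mem_clF.2 hy) t (fun i hi => ?_)
  have h1 := mem_empty (ht hi)
  cases i with
  | inl j => exact h1
  | inr x =>
    have h2 : R k x.1 ∈ clF (Kf F k) ∅ := h1
    rw [R_eq hk] at h2
    exact h2

theorem one {F : Subfield ℝ} (hF : SimLiouville F) {k : ℕ} (hk : 2 ≤ k) :
    {o : Option PosRat | IsAlgebraic (K F k) (o.elim (zeta k) fun x => R k x.1)}.encard ≤ 1 := by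
  have h := main hF hk (fun _ : Fin 1 => zeta k) (mem_clF.1 (subset_clF _ ⟨0, rfl⟩))
  let g : Option PosRat → Fin 1 ⊕ PosRat := fun o => o.elim (Sum.inl 0) Sum.inr
  have hg : Function.Injective g := by
    intro a b hab
    cases a <;> cases b <;> simp_all [g]
  have h2 : g '' {o : Option PosRat | IsAlgebraic (K F k) (o.elim (zeta k) fun x => R k x.1)} ⊆
      algebraicOnes (K F k) k (fun _ : Fin 1 => zeta k) := by
    rintro _ ⟨o, ho, rfl⟩
    cases o with
    | none => exact ho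
    | some x => exact ho
  calc _ = (g '' {o : Option PosRat | IsAlgebraic (K F k) (o.elim (zeta k) fun x => R k x.1)}).encard :=
        (hg.encard_image _).symm
    _ ≤ _ := encard_le_encard h2
    _ ≤ 1 := by exact_mod_cast h

theorem result :
    -- the decompositions
    (∀ (k : ℕ) (x : PosRat), 2 ≤ k → zeta k = C k x.1 + R k x.1) ∧
    (∀ x : PosRat, R 3 x.1 = 1 / 12 * ∫ t in {t : Fin 3 → ℝ | (∀ j, 0 < t j) ∧ ∃ j, (x.1 : ℝ) ≤ t j},
      Real.log (t 0 * t 1 / t 2 ^ 2) ^ 3 * Real.exp (-(t 0 + t 1 + t 2))) ∧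
    -- there are large simultaneously Liouville fields
    (∃ F : Subfield ℝ, SimLiouville F ∧ #F = 𝔠) ∧
    ∀ F : Subfield ℝ, SimLiouville F → ∀ k : ℕ, 2 ≤ k →
    -- (1)
    AlgebraicIndependent F (Sum.elim (fun x : PosRat => C k x.1) (gens k)) ∧
    -- (2)
    ({o : Option PosRat | IsAlgebraic (K F k) (o.elim (zeta k) fun x => R k x.1)}.encard ≤ 1 ∧
      (IsAlgebraic (K F k) (zeta k) → AlgebraicIndependent (K F k) (fun x : PosRat => R k x.1))) ∧
    -- (3)
    ∀ (r : ℕ) (y : Fin r → ℝ), IsAlgebraic (IntermediateField.adjoin (K F k) (range y)) (zeta k) →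
      (algebraicOnes (K F k) k y).encard ≤ (r : ℕ∞) ∧
      ∀ S : Finset PosRat,
        (S.card : Cardinal) ≤ Algebra.trdeg (K F k) (IntermediateField.adjoin (K F k)
          (range y ∪ (fun x : PosRat => R k x.1) '' (S : Set PosRat))) ∧
        (S.card : Cardinal) ≤ Algebra.trdeg (K F k) (IntermediateField.adjoin (K F k)
          ((fun x : PosRat => R k x.1) '' (S : Set PosRat))) + r := by
  refine ⟨fun k x hk => ?_, fun x => ?_, Pool.Agent.P8H10.ZOut.exists_big, fun F hF k hk =>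
    ⟨?_, ⟨one hF hk, fun h => ?_⟩, fun r y hy => ⟨main hF hk y hy, fun S => ?_⟩⟩⟩
  · rw [C_eq hk, R_eq hk]
    ring
  · exact Pool.Agent.Results.MP_48b3e2_nt.IncompleteZetaValues.three x.2
  · let g : PosRat ⊕ Option (Index k) → Qp ⊕ Option (Bs k) := Sum.map id (Option.map (ch k))
    have hg : Function.Injective g :=
      Function.Injective.sumMap Function.injective_id (Option.map_injective (ch_inj k))
    have h := (AI_sum hF hk).comp g hg
    have e : Sum.elim (fun x : PosRat => C k x.1) (gens k) =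
        Sum.elim (fun x : Qp => Pool.Agent.R352.Q.Zk k x.1) (bs k) ∘ g := by
      funext s
      rcases s with x | o
      · exact C_eq hk x
      · exact gens_eq k o
    rw [e]
    exact h
  · rw [K_eq] at h ⊢
    have h2 := AI_diff (AI_K hF hk) h
    have e : (fun x : PosRat => R k x.1) = fun x : Qp => zeta k - Pool.Agent.R352.Q.Zk k x.1 := by
      funext x
      exact R_eq hk x
    rw [e]
    exact h2
  · rw [K_eq] at hy ⊢
    have h2 := trdegK (AI_K hF hk) (zeta k) y (mem_clF.2 hy) S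
    have e : (fun x : PosRat => R k x.1) = fun x : Qp => zeta k - Pool.Agent.R352.Q.Zk k x.1 := by
      funext x
      exact R_eq hk x
    rw [e]
    exact h2

end Pool.Agent.Results.MP_48b3e2_nt.OverEFunctionValues
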