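import Mathlib
import Pool.Agent.P8H10.ZLio
import Pool.Agent.P8H10.ZUnc
import Pool.Agent.Results.MP_48b3e2_nt.IncompleteZetaValues

set_option autoImplicit false

/-!
# `ζ(3)` as a triple integral, over fields of Liouville numbers

A field `F` of real numbers is called simultaneously Liouville (`SimLiouville`) if for any finitely many elements
`x_1, …, x_m` of `F` and any `w` there are arbitrarily large `q` with `‖q x_i‖ < q ^ (-w)` for all `i`. The field of
rational numbers is one of them, and some of them have the cardinality of the continuum.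

For an integer `k ≥ 2` let `ω = exp (2 π i / k)`. For a positive rational number `x` let `C_k(x)` be
the number `(-1)^k / k! * ∫ (∑_j ω^j log t_j)^k exp (-∑_j t_j) dt`, the integral being over the
cube `(0, x)^k`, and let `R_k(x)` be the same integral over the rest `(0, ∞)^k \ (0, x)^k` of the octant; so that
`ζ(k) = C_k(x) + R_k(x)` by the starting result `IncompleteZetaValues` of this folder. For every simultaneously
Liouville field `F`:

(1) The numbers `e` and `C_k(x)` (`k ≥ 2`, `x` positive rational) are algebraically independent over `F`.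

(2) At most one of the numbers `ζ(3)` and `R_3(x)` (`x` positive rational) is algebraic over `F(e)`. If `ζ(3)` is
algebraic over `F(e)` (for example if `ζ(3)` is an element of `F`), then `e` and the numbers `R_3(x)` (`x` positive
rational) are algebraically independent over `F`.

(3) Let `y_1, …, y_r` be real numbers and `K` a set of integers `k ≥ 2` for which `ζ(k)` is algebraic over
`F(e, y_1, …, y_r)`. At most `r` of the numbers `y_1, …, y_r` and `R_k(x)` (`k ∈ K`, `x` positive rational) are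
algebraic over `F(e)`, and for all finite sets `S` of pairs `(k, x)` (`k ∈ K`, `x` positive rational) the field
`F(e, y_1, …, y_r, R_k(x) : (k, x) ∈ S)` has transcendence degree at least `|S| + 1` over `F`.

(4) For `c ≥ 0` at most `c + 1` of the numbers `π, ζ(3), ζ(5), …, ζ(2c+1)` and `R_k(x)` (`k ≥ 2`, `k` even
or `k ≤ 2c + 1`, `x` positive rational) are algebraic over `F(e)`.

The starting result `IncompleteZetaValues` is the case of the field of rational numbers.
-/

namespace Pool.Agent.Results.MP_48b3e2_nt.OverLiouvilleFields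

open Set MeasureTheory Cardinal

open Pool.Agent.Results.MP_48b3e2_nt.IncompleteZetaValues (zeta cubeIntegral tailIntegral rest C R constants)

/-- any finitely many elements of `F` have simultaneous rational approximations of any order -/
def SimLiouville (F : Subfield ℝ) : Prop :=
  ∀ s : Finset ℝ, (∀ x ∈ s, x ∈ F) → ∀ w q0 : ℕ, ∃ q : ℕ, q0 ≤ q ∧ 1 ≤ q ∧
    ∀ x ∈ s, ∃ p : ℤ, |(q : ℝ) * x - p| < 1 / (q : ℝ) ^ w

/-- `x` is algebraic over `F(e, y_1, …, y_r)` -/
def AlgebraicOverEAnd (F : Subfield ℝ) {r : ℕ} (y : Fin r → ℝ) (x : ℝ) : Prop :=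
  IsAlgebraic (IntermediateField.adjoin F ({Real.exp 1} ∪ range y)) x

/-- `x` is algebraic over `F(e)` -/
def AlgebraicOverE (F : Subfield ℝ) (x : ℝ) : Prop := IsAlgebraic (IntermediateField.adjoin F {Real.exp 1}) x

/-- the set of names of those of the numbers `y_1, …, y_r` and `R_k(x)` (`k ∈ K`, `x` positive rational)
which are algebraic over `F(e)` -/
def algebraicNames (F : Subfield ℝ) {r : ℕ} (y : Fin r → ℝ) (K : Set ℕ) : Set (Fin r ⊕ (ℕ × ℚ)) :=
  {i | Sum.elim (fun j => AlgebraicOverE F (y j)) (fun p => p.1 ∈ K ∧ 0 < p.2 ∧ AlgebraicOverE F (R p.1 p.2)) i}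

/-- the names of `ζ(3)` and `R_3(x)`, `x` positive rational, algebraic over `F(e)` -/
def namesThree (F : Subfield ℝ) : Set (Option ℚ) :=
  {o | o.elim (AlgebraicOverE F (zeta 3)) fun x => 0 < x ∧ AlgebraicOverE F (R 3 x)}

open Pool.Agent.Results.MP_48b3e2_nt.IncompleteZetaValues (C_eq R_eq)

theorem main {F : Subfield ℝ} (hF : SimLiouville F) {r : ℕ} (y : Fin r → ℝ) (K : Set ℕ)
    (hK : ∀ k ∈ K, 2 ≤ k ∧ AlgebraicOverEAnd F y (zeta k)) : (algebraicNames F y K).encard ≤ (r : ℕ∞) := by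
  refine Pool.Agent.R352.E.encard_le_of_finset _ _ fun t ht => ?_
  refine Pool.Agent.P8H10.MF.countR hF y t (fun i hi => ?_) (fun p hp => ?_)
  · have h1 := ht hi
    cases i with
    | inl j => exact Pool.Agent.P8H10.MF.mem_clF.2 h1
    | inr p =>
      obtain ⟨h2, h3, h4⟩ := h1
      rw [R_eq (hK _ h2).1 h3] at h4
      exact Pool.Agent.P8H10.MF.mem_clF.2 h4
  · obtain ⟨h2, h3, -⟩ := ht hp
    exact ⟨(hK _ h2).1, h3, Pool.Agent.P8H10.MF.mem_clF.2 (hK _ h2).2⟩

theorem main_trdeg {F : Subfield ℝ} (hF : SimLiouville F) {r : ℕ} (y : Fin r → ℝ) (K : Set ℕ)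
    (hK : ∀ k ∈ K, 2 ≤ k ∧ AlgebraicOverEAnd F y (zeta k)) (S : Finset (ℕ × ℚ)) (hS : ∀ p ∈ S, p.1 ∈ K ∧ 0 < p.2) :
    ((S.card + 1 : ℕ) : Cardinal) ≤ Algebra.trdeg F (IntermediateField.adjoin F
      ({Real.exp 1} ∪ range y ∪ (fun p : ℕ × ℚ => R p.1 p.2) '' (S : Set (ℕ × ℚ)))) := by
  have h := Pool.Agent.P8H10.MF.trdegR hF y S fun p hp =>
    ⟨(hK _ (hS p hp).1).1, (hS p hp).2, Pool.Agent.P8H10.MF.mem_clF.2 (hK _ (hS p hp).1).2⟩
  have e : (fun p : ℕ × ℚ => R p.1 p.2) '' (S : Set (ℕ × ℚ)) =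
      (fun p : ℕ × ℚ => Pool.Agent.R352.Q.Rk p.1 p.2) '' (S : Set (ℕ × ℚ)) := by
    refine image_congr fun p hp => ?_
    have := hS p hp
    exact R_eq (hK _ this.1).1 this.2
  rw [e]
  exact h

theorem three_count {F : Subfield ℝ} (hF : SimLiouville F) : (namesThree F).encard ≤ 1 := by
  have h := main hF (fun _ : Fin 1 => zeta 3) {3} (by
    rintro k rfl
    refine ⟨by norm_num, Pool.Agent.P8H10.MF.mem_clF.1 (Pool.Agent.P8H10.MF.subset_clF _ (Or.inr ⟨0, rfl⟩))⟩)
  let f : Option ℚ → Fin 1 ⊕ (ℕ × ℚ) := fun o => o.elim (Sum.inl 0) fun x => Sum.inr (3, x)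
  have hf : Function.Injective f := by
    intro a b hab
    cases a <;> cases b <;> simp_all [f]
  have h2 : f '' namesThree F ⊆ algebraicNames F (fun _ : Fin 1 => zeta 3) {3} := by
    rintro _ ⟨o, ho, rfl⟩
    cases o with
    | none => exact ho
    | some x => exact ⟨rfl, ho.1, ho.2⟩
  calc (namesThree F).encard = (f '' namesThree F).encard := (hf.encard_image _).symm
    _ ≤ _ := encard_le_encard h2
    _ ≤ 1 := by exact_mod_cast h

theorem three_indep {F : Subfield ℝ} (hF : SimLiouville F) (h : AlgebraicOverE F (zeta 3)) :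
    AlgebraicIndependent F (fun o : Option {x : ℚ // 0 < x} => o.elim (Real.exp 1) fun x => R 3 x) := by
  have h1 := Pool.Agent.P8H10.MF.AI_R hF {3} (by
    rintro k rfl
    exact ⟨by norm_num, Pool.Agent.P8H10.MF.mem_clF.2 h⟩)
  let f : Option {x : ℚ // 0 < x} → Option {p : ℕ × ℚ // p.1 ∈ ({3} : Set ℕ) ∧ 0 < p.2} :=
    Option.map fun x => ⟨(3, x), rfl, x.2⟩
  have hf : Function.Injective f := by
    refine Option.map_injective ?_
    intro a b hab
    simp only [Subtype.mk.injEq, Prod.mk.injEq, true_and] at hab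
    exact Subtype.ext hab
  have h2 := h1.comp f hf
  convert h2 using 1
  ext o
  cases o with
  | none => rfl
  | some x => exact R_eq (by norm_num) x.2

theorem even_mem {F : Subfield ℝ} {T : Set ℝ} (hpi : Real.pi ∈ Pool.Agent.P8H10.MF.clF F T) (k : ℕ) (hk : k ≠ 0) :
    zeta (2 * k) ∈ Pool.Agent.P8H10.MF.clF F T := by
  have h1 := hasSum_zeta_nat hk
  have h2 : zeta (2 * k) =
      (-1 : ℝ) ^ (k + 1) * (2 : ℝ) ^ (2 * k - 1) * Real.pi ^ (2 * k) * bernoulli (2 * k) / (2 * k).factorial := by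
    rw [← h1.tsum_eq, zeta]
    have hs : Summable (fun n : ℕ => 1 / (n : ℝ) ^ (2 * k)) := h1.summable
    rw [← hs.sum_add_tsum_nat_add 1]
    simp only [Finset.sum_range_succ, Finset.sum_range_zero, zero_add]
    have h0 : (0 : ℝ) ^ (2 * k) = 0 := zero_pow (by omega)
    rw [Nat.cast_zero, h0, div_zero, zero_add]
    refine tsum_congr fun n => ?_
    push_cast
    rfl
  rw [h2]
  set L := Pool.Agent.P8H10.MF.clF F T
  refine L.div_mem (L.mul_mem (L.mul_mem (L.mul_mem ?_ ?_) (L.pow_mem hpi _)) ?_) (natCast_mem L _)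
  · exact L.pow_mem (L.neg_mem L.one_mem) _
  · refine L.pow_mem ?_ _
    exact_mod_cast natCast_mem L 2
  · exact SubfieldClass.ratCast_mem L _

theorem constants_mem (F : Subfield ℝ) {c k : ℕ} (hk : 2 ≤ k) (h : Even k ∨ k ≤ 2 * c + 1) :
    AlgebraicOverEAnd F (constants c) (zeta k) := by
  refine Pool.Agent.P8H10.MF.mem_clF.1 ?_
  have hpi : Real.pi ∈ Pool.Agent.P8H10.MF.clF F ({Real.exp 1} ∪ range (constants c)) :=
    Pool.Agent.P8H10.MF.subset_clF _ (Or.inr ⟨0, rfl⟩)
  rcases Nat.even_or_odd' k with ⟨j, rfl | rfl⟩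
  · exact even_mem hpi j (by omega)
  · have h1 : 2 * j + 1 ≤ 2 * c + 1 := by
      rcases h with h | h
      · exact absurd h (by simp)
      · exact h
    refine Pool.Agent.P8H10.MF.subset_clF _ (Or.inr ⟨Fin.succ ⟨j - 1, by omega⟩, ?_⟩)
    simp only [constants, Fin.cons_succ]
    congr 1
    omega

theorem result :
    -- there are large simultaneously Liouville fields
    (∃ F : Subfield ℝ, SimLiouville F ∧ #F = 𝔠) ∧
    ∀ F : Subfield ℝ, SimLiouville F →
    -- (1)
    AlgebraicIndependent F (fun o : Option {p : ℕ × ℚ // 2 ≤ p.1 ∧ 0 < p.2} =>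
      o.elim (Real.exp 1) fun p => C p.1.1 p.1.2) ∧
    -- (2)
    ((namesThree F).encard ≤ 1 ∧ (AlgebraicOverE F (zeta 3) →
      AlgebraicIndependent F (fun o : Option {x : ℚ // 0 < x} => o.elim (Real.exp 1) fun x => R 3 x))) ∧
    -- (3)
    (∀ (r : ℕ) (y : Fin r → ℝ) (K : Set ℕ), (∀ k ∈ K, 2 ≤ k ∧ AlgebraicOverEAnd F y (zeta k)) →
      (algebraicNames F y K).encard ≤ (r : ℕ∞) ∧
      ∀ S : Finset (ℕ × ℚ), (∀ p ∈ S, p.1 ∈ K ∧ 0 < p.2) →
        ((S.card + 1 : ℕ) : Cardinal) ≤ Algebra.trdeg F (IntermediateField.adjoin F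
          ({Real.exp 1} ∪ range y ∪ (fun p : ℕ × ℚ => R p.1 p.2) '' (S : Set (ℕ × ℚ))))) ∧
    -- (4)
    (∀ c : ℕ, (algebraicNames F (constants c) {k | 2 ≤ k ∧ (Even k ∨ k ≤ 2 * c + 1)}).encard ≤
      ((c + 1 : ℕ) : ℕ∞)) := by
  refine ⟨Pool.Agent.P8H10.ZOut.exists_big, fun F hF => ⟨?_, ⟨three_count hF, three_indep hF⟩,
    fun r y K hK => ⟨main hF y K hK, main_trdeg hF y K hK⟩, fun c => ?_⟩⟩
  · have h := Pool.Agent.P8H10.MF.AI_Z hF
    convert h using 1
    ext o
    cases o with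
    | none => rfl
    | some p => exact C_eq p.2.1 p.2.2
  · exact main hF (constants c) _ fun k hk => ⟨hk.1, constants_mem F hk.1 hk.2⟩

end Pool.Agent.Results.MP_48b3e2_nt.OverLiouvilleFields
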